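import Pool.Agent.Helper43.Fr.Goals

/-!
# Packet GAM (MP_c866d3_nt): `F^{p-1} F_1 = 1 + p Γ` and the equation of `Γ` mod `p`
-/

namespace Pool.Agent.Helper43.Fr.PkGam

open scoped PowerSeries Polynomial
open PowerSeries

noncomputable section

/-! ### coefficients of `th` -/

theorem coeff_th {R : Type*} [CommRing R] (f : R⟦X⟧) (n : ℕ) :
    coeff n (th f) = (n : R) * coeff n f := by
  have h : th f = X * PowerSeries.derivative R f := rfl
  rw [h]
  cases n with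
  | zero => simp
  | succ m =>
    rw [PowerSeries.coeff_succ_X_mul, PowerSeries.coeff_derivative]
    push_cast
    ring

theorem coeff_thP {R : Type*} [CommRing R] (f : R[X]) (n : ℕ) :
    (thP f).coeff n = (n : R) * f.coeff n := by
  have h : thP f = Polynomial.X * Polynomial.derivative f := rfl
  rw [h]
  cases n with
  | zero => simp
  | succ m =>
    rw [Polynomial.coeff_X_mul, Polynomial.coeff_derivative]
    push_cast
    ring

theorem th_coe {R : Type*} [CommRing R] (f : R[X]) :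
    th (f : R⟦X⟧) = ((thP f : R[X]) : R⟦X⟧) := by
  ext n
  rw [coeff_th, Polynomial.coeff_coe, Polynomial.coeff_coe, coeff_thP]

theorem th_map {R S : Type*} [CommRing R] [CommRing S] (φ : R →+* S) (f : R⟦X⟧) :
    th (PowerSeries.map φ f) = PowerSeries.map φ (th f) := by
  ext n
  rw [coeff_th, PowerSeries.coeff_map, PowerSeries.coeff_map, coeff_th, map_mul, map_natCast]

/-! ### product with a series in `X^p` -/

/-- `∑ g_j X^{pj}` -/
def ex {R : Type*} [CommRing R] (p : ℕ) (g : ℕ → R) : R⟦X⟧ :=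
  PowerSeries.mk fun n => if p ∣ n then g (n / p) else 0

theorem coeff_ex {R : Type*} [CommRing R] (p : ℕ) (g : ℕ → R) (n : ℕ) :
    coeff n (ex p g) = if p ∣ n then g (n / p) else 0 := by
  rw [ex, PowerSeries.coeff_mk]

theorem coeff_mul_ex {R : Type*} [CommRing R] {p : ℕ} (hp : 0 < p) (g : ℕ → R) (P : R[X])
    (hP : P.natDegree < p) (i j : ℕ) (hi : i < p) :
    coeff (i + p * j) ((P : R⟦X⟧) * ex p g) = P.coeff i * g j := by
  rw [PowerSeries.coeff_mul]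
  rw [Finset.sum_eq_single (i, p * j)]
  · rw [Polynomial.coeff_coe, coeff_ex, if_pos (Dvd.intro j rfl), Nat.mul_div_cancel_left _ hp]
  · rintro ⟨a, b⟩ hab hne
    rw [Finset.HasAntidiagonal.mem_antidiagonal] at hab
    simp only at hab ⊢
    rw [Polynomial.coeff_coe, coeff_ex]
    by_cases hb : p ∣ b
    · obtain ⟨c, rfl⟩ := hb
      by_cases ha : a < p
      · exfalso
        apply hne
        have h1 : (a + p * c) % p = (i + p * j) % p := by rw [hab]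
        rw [Nat.add_mul_mod_self_left, Nat.add_mul_mod_self_left, Nat.mod_eq_of_lt ha,
          Nat.mod_eq_of_lt hi] at h1
        subst h1
        have : p * c = p * j := by omega
        rw [this]
      · rw [Polynomial.coeff_eq_zero_of_natDegree_lt (by omega), zero_mul]
    · rw [if_neg hb, mul_zero]
  · intro h
    exact absurd (Finset.HasAntidiagonal.mem_antidiagonal.mpr (by rfl)) h

theorem F1_coeff (R : Type*) [CommRing R] (p i : ℕ) :
    (F1 R p).coeff i = if i < p then (aa i : R) else 0 := by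
  unfold F1
  rw [Polynomial.finsetSum_coeff]
  simp only [Polynomial.coeff_monomial]
  rw [Finset.sum_ite_eq' (Finset.range p) i (fun n => (aa n : R))]
  simp [Finset.mem_range]

theorem F1_natDegree (R : Type*) [CommRing R] (p : ℕ) (hp : 0 < p) :
    (F1 R p).natDegree < p := by
  apply lt_of_le_of_lt (b := p - 1) _ (by omega)
  rw [Polynomial.natDegree_le_iff_coeff_eq_zero]
  intro N hN
  rw [F1_coeff, if_neg (by omega)]

/-! ### divisibility by powers of `p` -/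

theorem natCast_dvd_iff {R : Type*} [CommRing R] (m : ℕ) (f : R⟦X⟧) :
    (m : R⟦X⟧) ∣ f ↔ ∀ n, (m : R) ∣ coeff n f := by
  constructor
  · rintro ⟨g, rfl⟩ n
    have : (m : R⟦X⟧) * g = (m : R) • g := by
      rw [Nat.cast_smul_eq_nsmul, nsmul_eq_mul]
    rw [this, PowerSeries.coeff_smul]
    exact Dvd.intro _ rfl
  · intro h
    choose c hc using h
    refine ⟨PowerSeries.mk c, ?_⟩
    have : (m : R⟦X⟧) * PowerSeries.mk c = (m : R) • PowerSeries.mk c := by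
      rw [Nat.cast_smul_eq_nsmul, nsmul_eq_mul]
    rw [this]
    ext n
    rw [PowerSeries.coeff_smul, PowerSeries.coeff_mk, hc n, smul_eq_mul]

variable {p : ℕ} [Fact p.Prime]

theorem toZMod_eq_zero_iff (x : ℤ_[p]) : PadicInt.toZMod x = 0 ↔ (p : ℤ_[p]) ∣ x := by
  rw [← RingHom.mem_ker, PadicInt.ker_toZMod, PadicInt.maximalIdeal_eq_span_p,
    Ideal.mem_span_singleton]

theorem p_dvd_iff (f : ℤ_[p]⟦X⟧) :
    (p : ℤ_[p]⟦X⟧) ∣ f ↔ PowerSeries.map (PadicInt.toZMod (p := p)) f = 0 := by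
  rw [natCast_dvd_iff]
  constructor
  · intro h
    ext n
    rw [PowerSeries.coeff_map, map_zero, toZMod_eq_zero_iff]
    exact h n
  · intro h n
    rw [← toZMod_eq_zero_iff, ← PowerSeries.coeff_map, h, map_zero]

/-- Frobenius: `f^p = ∑ f_j X^{pj}` over `ZMod p` -/
theorem pow_p_eq (f : (ZMod p)⟦X⟧) : f ^ p = ex p (fun j => coeff j f) := by
  have hp : p ≠ 0 := (Fact.out : p.Prime).ne_zero
  have h := MvPowerSeries.map_frobenius_expand (σ := Unit) (R := ZMod p) (p := p) hp (f := f)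
  rw [ZMod.frobenius_zmod, MvPowerSeries.map_id] at h
  have h2 : PowerSeries.expand p hp f = f ^ p := h
  rw [← h2]
  ext n
  rw [PowerSeries.coeff_expand, coeff_ex]

theorem map_F1 : PowerSeries.map (PadicInt.toZMod (p := p)) ((F1 ℤ_[p] p : ℤ_[p][X]) : ℤ_[p]⟦X⟧)
    = ((F1 (ZMod p) p : (ZMod p)[X]) : (ZMod p)⟦X⟧) := by
  ext n
  rw [PowerSeries.coeff_map, Polynomial.coeff_coe, Polynomial.coeff_coe, F1_coeff, F1_coeff]
  split_ifs
  · rw [map_natCast]
  · rw [map_zero]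

theorem map_poly (f : ℤ_[p][X]) :
    PowerSeries.map (PadicInt.toZMod (p := p)) (f : ℤ_[p]⟦X⟧)
      = ((f.map (PadicInt.toZMod (p := p)) : (ZMod p)[X]) : (ZMod p)⟦X⟧) := by
  ext n
  rw [PowerSeries.coeff_map, Polynomial.coeff_coe, Polynomial.coeff_coe, Polynomial.coeff_map]

/-- `G = F(X^p)` -/
def GG (p : ℕ) [Fact p.Prime] : ℤ_[p]⟦X⟧ := ex p (fun j => (aa j : ℤ_[p]))

/-- `H = (θF)(X^p)` -/
def HH (p : ℕ) [Fact p.Prime] : ℤ_[p]⟦X⟧ := ex p (fun j => (j : ℤ_[p]) * (aa j : ℤ_[p]))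

theorem natCast_mul_coeff {R : Type*} [CommRing R] (m : ℕ) (f : R⟦X⟧) (n : ℕ) :
    coeff n ((m : R⟦X⟧) * f) = (m : R) * coeff n f := by
  have : (m : R⟦X⟧) * f = (m : R) • f := by
    rw [Nat.cast_smul_eq_nsmul, nsmul_eq_mul]
  rw [this, PowerSeries.coeff_smul, smul_eq_mul]

theorem th_G : th (GG p) = (p : ℤ_[p]⟦X⟧) * HH p := by
  ext n
  rw [coeff_th, natCast_mul_coeff, GG, HH, coeff_ex, coeff_ex]
  by_cases h : p ∣ n
  · obtain ⟨c, rfl⟩ := h
    rw [if_pos (Dvd.intro c rfl), if_pos (Dvd.intro c rfl),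
      Nat.mul_div_cancel_left _ (Fact.out : p.Prime).pos]
    push_cast
    ring
  · rw [if_neg h, if_neg h]
    ring

theorem th_H : (p : ℤ_[p]⟦X⟧) ∣ th (HH p) := by
  rw [natCast_dvd_iff]
  intro n
  rw [coeff_th, HH, coeff_ex]
  by_cases h : p ∣ n
  · obtain ⟨c, rfl⟩ := h
    push_cast
    exact ⟨(c : ℤ_[p]) * _, by rw [mul_assoc]⟩
  · rw [if_neg h, mul_zero]
    exact dvd_zero _

theorem partA {B : ℤ_[p][X]} (hB : IsB p B) :
    ((p ^ 2 : ℕ) : ℤ_[p]⟦X⟧) ∣ FF ℤ_[p] - ((F1 ℤ_[p] p : ℤ_[p][X]) : ℤ_[p]⟦X⟧) * GG p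
      - (p : ℤ_[p]⟦X⟧) * ((B : ℤ_[p]⟦X⟧) * HH p) := by
  rw [natCast_dvd_iff]
  intro n
  have hp : 0 < p := (Fact.out : p.Prime).pos
  obtain ⟨i, j, hi, rfl⟩ : ∃ i j, i < p ∧ n = i + p * j :=
    ⟨n % p, n / p, Nat.mod_lt _ hp, (Nat.mod_add_div n p).symm⟩
  rw [map_sub, map_sub, natCast_mul_coeff, GG, HH,
    coeff_mul_ex hp _ _ (F1_natDegree _ p hp) i j hi, coeff_mul_ex hp _ _ hB.deg i j hi,
    F1_coeff, if_pos hi, FF, PowerSeries.coeff_mk]
  have h := hB.two i hi j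
  push_cast
  have e : (aa (i + p * j) : ℤ_[p]) - (aa i : ℤ_[p]) * (aa j : ℤ_[p])
      - (p : ℤ_[p]) * (B.coeff i * ((j : ℤ_[p]) * (aa j : ℤ_[p])))
      = (aa (i + p * j) : ℤ_[p]) - (aa j : ℤ_[p]) * (aa i : ℤ_[p])
      - (p : ℤ_[p]) * (j : ℤ_[p]) * (aa j : ℤ_[p]) * B.coeff i := by ring
  rw [e]
  exact h

theorem partC : (p : ℤ_[p]⟦X⟧) ∣ HH p - (th (FF ℤ_[p])) ^ p := by
  rw [p_dvd_iff, map_sub, map_pow, pow_p_eq, sub_eq_zero]
  ext n
  rw [PowerSeries.coeff_map, HH, coeff_ex, coeff_ex]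
  split_ifs
  · rw [PowerSeries.coeff_map, coeff_th, FF, PowerSeries.coeff_mk]
  · rw [map_zero]

theorem partC' : (p : ℤ_[p]⟦X⟧) ∣ GG p - (FF ℤ_[p]) ^ p := by
  rw [p_dvd_iff, map_sub, map_pow, pow_p_eq, sub_eq_zero]
  ext n
  rw [PowerSeries.coeff_map, GG, coeff_ex, coeff_ex]
  split_ifs
  · rw [PowerSeries.coeff_map, FF, PowerSeries.coeff_mk]
  · rw [map_zero]

theorem aa_zero : aa 0 = 1 := by
  simp [aa, franel]

theorem isUnit_F : IsUnit (FF ℤ_[p]) := by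
  rw [PowerSeries.isUnit_iff_constantCoeff, FF, ← PowerSeries.coeff_zero_eq_constantCoeff_apply,
    PowerSeries.coeff_mk, aa_zero, Nat.cast_one]
  exact isUnit_one

theorem th_pow {R : Type*} [CommRing R] (f : R⟦X⟧) (n : ℕ) :
    th (f ^ n) = (n : R⟦X⟧) * f ^ (n - 1) * th f := by
  rw [Derivation.leibniz_pow, smul_eq_mul, nsmul_eq_mul]
  ring

theorem th_natCast {R : Type*} [CommRing R] (n : ℕ) : th (n : R⟦X⟧) = 0 := by
  exact Derivation.map_natCast th n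

theorem gam : G_TWOA → G_WRO → G_GAM := by
  intro hT hW p _ hp3
  obtain ⟨B, hB⟩ := hT p hp3
  have hwro := hW p hp3 B hB
  have hp : p.Prime := Fact.out
  -- notation
  set F : ℤ_[p]⟦X⟧ := FF ℤ_[p] with hF
  set F₁ : ℤ_[p]⟦X⟧ := ((F1 ℤ_[p] p : ℤ_[p][X]) : ℤ_[p]⟦X⟧) with hF1
  set Bs : ℤ_[p]⟦X⟧ := (B : ℤ_[p]⟦X⟧) with hBs
  set D : ℤ_[p]⟦X⟧ := (DD (PowerSeries.X : ℤ_[p]⟦X⟧)) ^ ((p - 1) / 2) with hD
  obtain ⟨R0, hR0⟩ := partA hB
  obtain ⟨W2, hW2⟩ := partC (p := p)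
  obtain ⟨W3, hW3⟩ := partC' (p := p)
  obtain ⟨H2, hH2⟩ := th_H (p := p)
  have hG := th_G (p := p)
  rw [← hF] at hR0 hW2 hW3
  rw [← hF1, ← hBs] at hR0
  -- the Wronskian
  have hWd : (p : ℤ_[p]⟦X⟧) ∣ F₁ ^ 2 + F₁ * th Bs - Bs * th F₁ - F₁ * D := by
    rw [p_dvd_iff]
    have e1 : PowerSeries.map (PadicInt.toZMod (p := p)) F₁ =
        ((F1 (ZMod p) p : (ZMod p)[X]) : (ZMod p)⟦X⟧) := map_F1
    have e2 : PowerSeries.map (PadicInt.toZMod (p := p)) Bs =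
        ((B.map (PadicInt.toZMod (p := p)) : (ZMod p)[X]) : (ZMod p)⟦X⟧) := map_poly B
    have e3 : PowerSeries.map (PadicInt.toZMod (p := p)) D =
        (((DD (Polynomial.X : (ZMod p)[X])) ^ ((p - 1) / 2) : (ZMod p)[X]) : (ZMod p)⟦X⟧) := by
      rw [hD, map_pow, Polynomial.coe_pow]
      congr 1
      simp only [DD]
      rw [map_sub, map_sub, map_mul, map_mul, map_pow, map_one, PowerSeries.map_X]
      rw [Polynomial.coe_sub, Polynomial.coe_sub, Polynomial.coe_mul, Polynomial.coe_mul,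
        Polynomial.coe_pow, Polynomial.coe_one, Polynomial.coe_X]
      have n1 : ((28 : (ZMod p)[X]) : (ZMod p)⟦X⟧) = 28 :=
        map_ofNat (Polynomial.coeToPowerSeries.ringHom (R := ZMod p)) 28
      have n2 : ((128 : (ZMod p)[X]) : (ZMod p)⟦X⟧) = 128 :=
        map_ofNat (Polynomial.coeToPowerSeries.ringHom (R := ZMod p)) 128
      rw [n1, n2, map_ofNat, map_ofNat]
    rw [map_sub, map_sub, map_add, map_mul, map_mul, map_mul, map_pow, ← th_map, ← th_map, e1, e2,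
      e3, th_coe, th_coe, ← Polynomial.coe_mul, ← Polynomial.coe_mul, ← Polynomial.coe_mul,
      ← Polynomial.coe_pow, ← Polynomial.coe_add, ← Polynomial.coe_sub, ← Polynomial.coe_sub,
      hwro, sub_self, Polynomial.coe_zero]
  obtain ⟨W, hWW⟩ := hWd
  -- (d)
  have hu : IsUnit F := isUnit_F
  have hFp : F ^ p = F ^ (p - 1) * F := by
    rw [← pow_succ]
    congr 1
    omega
  have hFp2 : F ^ (p - 1) = F ^ (p - 2) * F := by
    rw [← pow_succ]
    congr 1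
    omega
  have hd : (p : ℤ_[p]⟦X⟧) ∣ F ^ (p - 1) * F₁ - 1 := by
    have h1 : (p : ℤ_[p]⟦X⟧) ∣ F * (F ^ (p - 1) * F₁ - 1) := by
      have e : F * (F ^ (p - 1) * F₁ - 1) = F ^ p * F₁ - F := by
        rw [hFp]
        ring
      rw [e]
      refine ⟨-(F₁ * W3) - Bs * HH p - p * R0, ?_⟩
      have e2 : F = F₁ * GG p + p * (Bs * HH p) + (p ^ 2 : ℕ) * R0 := by
        linear_combination hR0
      have e3 : F ^ p = GG p - p * W3 := by linear_combination -hW3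
      rw [e3]
      conv_lhs => rw [e2]
      push_cast
      ring
    exact (hu.dvd_mul_left).mp h1
  obtain ⟨Γ, hΓ⟩ := hd
  have hΓ' : F ^ (p - 1) * F₁ = 1 + (p : ℤ_[p]⟦X⟧) * Γ := by linear_combination hΓ
  refine ⟨Γ, hΓ', ?_⟩
  -- (e)
  have hthF : th F = th F₁ * GG p + F₁ * (p * HH p) + p * (th Bs * HH p + Bs * (p * H2))
      + (p ^ 2 : ℕ) * th R0 := by
    have e2 : F = F₁ * GG p + (p : ℕ) * (Bs * HH p) + (p ^ 2 : ℕ) * R0 := by
      linear_combination hR0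
    have e3 := congrArg th e2
    rw [map_add, map_add, Derivation.leibniz, Derivation.leibniz, Derivation.leibniz,
      Derivation.leibniz, th_natCast, th_natCast, hG, hH2] at e3
    simp only [smul_eq_mul, mul_zero, add_zero] at e3
    rw [e3]
    ring
  have hcross : ∃ Q : ℤ_[p]⟦X⟧, F₁ * th F - F * th F₁
      = p * ((th F) ^ p * F₁ * D) + p ^ 2 * Q := by
    have e2 : F = F₁ * GG p + (p : ℕ) * (Bs * HH p) + (p ^ 2 : ℕ) * R0 := by
      linear_combination hR0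
    have e4 : F₁ * th F - F * th F₁ = p * (HH p * (F₁ ^ 2 + F₁ * th Bs - Bs * th F₁))
        + p ^ 2 * (F₁ * (Bs * H2 + th R0) - R0 * th F₁) := by
      have h5 : F₁ * th F = F₁ * (th F₁ * GG p + F₁ * (p * HH p)
          + p * (th Bs * HH p + Bs * (p * H2)) + (p ^ 2 : ℕ) * th R0) := by rw [← hthF]
      have h6 : F * th F₁ = (F₁ * GG p + (p : ℕ) * (Bs * HH p) + (p ^ 2 : ℕ) * R0) * th F₁ := by
        rw [← e2]
      rw [h5, h6]
      push_cast
      ring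
    have e5 : F₁ ^ 2 + F₁ * th Bs - Bs * th F₁ = F₁ * D + p * W := by linear_combination hWW
    have e6 : HH p = (th F) ^ p + p * W2 := by linear_combination hW2
    refine ⟨W2 * (F₁ * D) + (th F ^ p + p * W2) * W
      + (F₁ * (Bs * H2 + th R0) - R0 * th F₁), ?_⟩
    rw [e4, e5, e6]
    ring
  obtain ⟨Q, hQ⟩ := hcross
  -- (f)
  have hth : (p : ℤ_[p]⟦X⟧) * th Γ
      = ((p : ℤ_[p]⟦X⟧) - 1) * F ^ (p - 2) * th F * F₁ + F ^ (p - 1) * th F₁ := by
    have e := congrArg th hΓ'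
    rw [Derivation.leibniz, map_add, Derivation.leibniz, th_pow, th_natCast,
      Derivation.map_one_eq_zero] at e
    simp only [smul_eq_mul, mul_zero, add_zero, zero_add] at e
    have h1 : ((p - 1 : ℕ) : ℤ_[p]⟦X⟧) = (p : ℤ_[p]⟦X⟧) - 1 := by
      rw [Nat.cast_sub hp.one_le, Nat.cast_one]
    have h2 : p - 1 - 1 = p - 2 := by omega
    rw [h1, h2] at e
    rw [← e]
    ring
  refine ⟨Γ * (th F - (th F) ^ p * D) - F ^ (p - 1) * Q, ?_⟩
  have hpne : (p : ℤ_[p]⟦X⟧) ≠ 0 := by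
    intro h0
    have := congrArg (PowerSeries.constantCoeff (R := ℤ_[p])) h0
    rw [map_natCast, map_zero] at this
    exact hp.ne_zero (by exact_mod_cast this)
  apply mul_left_cancel₀ hpne
  have k1 : (p : ℤ_[p]⟦X⟧) * (F * th Γ)
      = ((p : ℤ_[p]⟦X⟧) - 1) * (F ^ (p - 1) * F₁) * th F + F ^ (p - 1) * (F * th F₁) := by
    have : (p : ℤ_[p]⟦X⟧) * (F * th Γ) = F * ((p : ℤ_[p]⟦X⟧) * th Γ) := by ring
    rw [this, hth]
    have : F * (((p : ℤ_[p]⟦X⟧) - 1) * F ^ (p - 2) * th F * F₁ + F ^ (p - 1) * th F₁)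
      = ((p : ℤ_[p]⟦X⟧) - 1) * (F ^ (p - 2) * F * F₁) * th F + F ^ (p - 1) * (F * th F₁) := by ring
    rw [this, ← hFp2]
  have k2 : F * th F₁ = F₁ * th F - (p * ((th F) ^ p * F₁ * D) + p ^ 2 * Q) := by
    linear_combination -hQ
  have k3 : (p : ℤ_[p]⟦X⟧) * (F * th Γ)
      = p * (F ^ (p - 1) * F₁) * (th F - (th F) ^ p * D) - p ^ 2 * (F ^ (p - 1) * Q) := by
    rw [k1, k2]
    ring
  rw [mul_sub, k3, hΓ']
  ring

end

end Pool.Agent.Helper43.Fr.PkGam
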